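import Pool.Agent.H75.OM.TA

/-!
# BL2: a pair of formulas does not see the block
-/

set_option autoImplicit false

namespace Pool.Agent.H91.OM

open Finset Pool.Agent.H6.NB Pool.Agent.H70.OQ Pool.Agent.H70.EH Pool.Agent.H70.EI
open Pool.Agent.H78.XQ Pool.Agent.H75.OM

theorem bi_nonneg (b : Bool) : 0 ≤ bi b := by
  unfold bi
  split <;> norm_num

theorem sum_prod_mv (hMUV : Pool.Agent.H70.EH.T_MUV) {U : Type} [Fintype U] [DecidableEq U]
    (b : Bool) (q : ℕ) : ∑ P : U → VV q → Bool, ∏ u, mv b q (P u) = 1 := by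
  have h1 := Finset.prod_univ_sum (fun _ : U => (univ : Finset (VV q → Bool)))
    (fun _ p => mv b q p)
  rw [Fintype.piFinset_univ] at h1
  rw [← h1]
  refine Finset.prod_eq_one fun u _ => ?_
  exact (hMUV b q).2.1

theorem pf_BL2 (hHWX : T_HX2) (hRIX : T_RI2) (hMUV : Pool.Agent.H70.EH.T_MUV) : T_BL2 := by
  classical
  intro r l q R n S₂ d₂ w₂ hSz hSz2 b gg hh hg1 hg2 hh1 hh2
  set B : ((Fin (2 * l) → Bool) → VV q → Bool) × ((Fin n → Bool) → Bool) → Bool :=
    fun c => gg c && hh c with hBdef
  set e : ℝ := (1 / 8) ^ r / 8 with he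
  set t : ℝ := (1 / 8) ^ r / (8 * 2 ^ (2 * 2 ^ r)) with ht
  have hp8 : (1 / 8 : ℝ) ^ r ≤ 1 := pow_le_one₀ (by norm_num) (by norm_num)
  have hp8' : 0 ≤ (1 / 8 : ℝ) ^ r := by positivity
  have he0 : 0 ≤ e := by positivity
  have he1 : e ≤ 1 := by
    rw [he]
    linarith
  have ht0 : 0 ≤ t := by positivity
  have hmv0 : ∀ (b : Bool) (P : (Fin (2 * l) → Bool) → VV q → Bool), 0 ≤ ∏ u, mv b q (P u) :=
    fun b P => Finset.prod_nonneg fun u _ => (hMUV b q).1 _
  set G : ((Fin (2 * l) → Bool) → VV q → Bool) → ℝ :=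
    fun P => if SayX q l b P then ∏ u, mv b q (P u) else 0 with hG
  have hG0 : ∀ P, 0 ≤ G P := by
    intro P
    simp only [hG]
    split
    · exact hmv0 b P
    · exact le_rfl
  have hG1 : ∑ P, G P ≤ 1 := by
    rw [← sum_prod_mv hMUV (U := Fin (2 * l) → Bool) b q]
    refine Finset.sum_le_sum fun P _ => ?_
    simp only [hG]
    split
    · exact le_rfl
    · exact hmv0 b P
  -- inner sums
  have hinner : ∀ P, G P * ((1 - e) * mn (fun h => bi (B (P, h))) - t) ≤
      ∑ h, mB q l R n b (P, h) * bi (B (P, h)) := by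
    intro P
    by_cases hS : SayX q l b P
    · obtain ⟨W, hW1, hW2, hW3⟩ := hHWX r l q R n S₂ d₂ w₂ hSz hSz2 b P hS
      have h1 := hW3 (fun h => gg (P, h)) (fun h => hh (P, h)) (hg2 P) (hh2 P)
      have hGP : G P = ∏ u, mv b q (P u) := by
        simp only [hG]
        rw [if_pos hS]
      have h2 : ∑ h, mB q l R n b (P, h) * bi (B (P, h)) =
          G P * wm (fun _ => none) W fun h => bi (B (P, h)) := by
        have h3 : ∀ h : (Fin n → Bool) → Bool, mB q l R n b (P, h) * bi (B (P, h)) =
            if h ∈ ws (fun _ : Fin n → Bool => none) W then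
              G P * (bi (B (P, h)) / (ws (fun _ : Fin n → Bool => none) W).card) else 0 := by
          intro h
          have h4 : h ∈ ws (fun _ : Fin n → Bool => none) W ↔ nt h = W := by
            unfold ws
            rw [Finset.mem_filter]
            constructor
            · exact fun h5 => h5.2.2
            · intro h5
              refine ⟨Finset.mem_univ _, ?_, h5⟩
              intro v c hc
              exact absurd hc (by simp)
          have h5 : OkB q l R n b (P, h) ↔ nt h = W := by
            unfold OkB Fit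
            constructor
            · rintro ⟨-, h6⟩
              rw [← hW1] at h6
              have h7 : (0 : ℝ) < 2 ^ n := by positivity
              have h8 : (nt h : ℝ) = W := by
                rw [div_left_inj' h7.ne'] at h6
                exact h6
              exact_mod_cast h8
            · intro h6
              refine ⟨hS, ?_⟩
              rw [← hW1, h6]
          unfold mB
          by_cases h6 : nt h = W
          · rw [if_pos (h5.2 h6), if_pos (h4.2 h6), hGP]
            dsimp only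
            rw [h6]
            ring
          · rw [if_neg (fun h7 => h6 (h5.1 h7)), if_neg (fun h7 => h6 (h4.1 h7)), zero_mul]
        simp_rw [h3]
        rw [Finset.sum_ite_mem, Finset.univ_inter, ← Finset.mul_sum, ← Finset.sum_div]
        rfl
      rw [h2]
      exact mul_le_mul_of_nonneg_left h1 (hG0 P)
    · have h1 : G P = 0 := by
        simp only [hG]
        rw [if_neg hS]
      rw [h1, zero_mul]
      refine Finset.sum_nonneg fun h _ => ?_
      refine mul_nonneg ?_ (bi_nonneg _)
      unfold mB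
      rw [if_neg (fun h2 => hS h2.1)]
  -- the exchange
  have hcard : Fintype.card (Fin n → Bool) = 2 ^ n := by simp
  have hcardH : Fintype.card ((Fin n → Bool) → Bool) = 2 ^ 2 ^ n := by simp
  have hpow : (0 : ℝ) < 2 ^ 2 ^ n := by positivity
  have hex : ∑ P, G P * mn (fun h => bi (B (P, h))) =
      (∑ h, ∑ P, G P * bi (B (P, h))) / 2 ^ 2 ^ n := by
    rw [Finset.sum_comm, Finset.sum_div]
    refine Finset.sum_congr rfl fun P _ => ?_
    unfold mn
    rw [hcard, ← Finset.mul_sum]
    ring
  have hm0 : ∑ c, m0 q l n c * bi (B c) =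
      (∑ h, ∑ P, (∏ u, mv false q (P u)) * bi (B (P, h))) / 2 ^ 2 ^ n := by
    rw [Fintype.sum_prod_type, Finset.sum_comm, Finset.sum_div]
    refine Finset.sum_congr rfl fun h _ => ?_
    rw [Finset.sum_div]
    refine Finset.sum_congr rfl fun P _ => ?_
    unfold m0
    ring
  have hm00 : 0 ≤ ∑ c, m0 q l n c * bi (B c) := by
    refine Finset.sum_nonneg fun c _ => mul_nonneg ?_ (bi_nonneg _)
    unfold m0
    exact div_nonneg (hmv0 false c.1) hpow.le
  have hRI : (1 - e) * ∑ c, m0 q l n c * bi (B c) - t ≤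
      ∑ P, G P * mn (fun h => bi (B (P, h))) := by
    rw [hex, hm0, le_div_iff₀ hpow, sub_mul, mul_assoc, div_mul_cancel₀ _ hpow.ne']
    have h1 : ∀ h ∈ (univ : Finset ((Fin n → Bool) → Bool)),
        (1 - e) * (∑ P, (∏ u, mv false q (P u)) * bi (B (P, h))) - t ≤
          ∑ P, G P * bi (B (P, h)) := by
      intro h _
      exact hRIX r l q R n S₂ d₂ w₂ hSz hSz2 b (fun P => gg (P, h)) (fun P => hh (P, h))
        (fun P u => hg1 P u h) (fun P u => hh1 P u h)
    have h2 := Finset.sum_le_sum h1
    rw [Finset.sum_sub_distrib, ← Finset.mul_sum, Finset.sum_const, Finset.card_univ, hcardH,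
      nsmul_eq_mul] at h2
    push_cast at h2
    linarith
  have hsum : (1 - e) * (∑ P, G P * mn (fun h => bi (B (P, h)))) - t ≤
      ∑ c, mB q l R n b c * bi (B c) := by
    rw [Fintype.sum_prod_type]
    have h1 := Finset.sum_le_sum fun P (_ : P ∈ (univ : Finset _)) => hinner P
    have h2 : ∑ P, G P * ((1 - e) * mn (fun h => bi (B (P, h))) - t) =
        (1 - e) * (∑ P, G P * mn (fun h => bi (B (P, h)))) - t * ∑ P, G P := by
      rw [Finset.mul_sum, Finset.mul_sum, ← Finset.sum_sub_distrib]
      refine Finset.sum_congr rfl fun P _ => ?_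
      ring
    rw [h2] at h1
    have h3 : t * ∑ P, G P ≤ t * 1 := mul_le_mul_of_nonneg_left hG1 ht0
    linarith
  have h1 : (1 - e) * ((1 - e) * ∑ c, m0 q l n c * bi (B c) - t) ≤
      (1 - e) * (∑ P, G P * mn (fun h => bi (B (P, h)))) :=
    mul_le_mul_of_nonneg_left hRI (by linarith)
  have h2 : (1 / 8 : ℝ) ^ r / 4 = 2 * e := by rw [he]; ring
  have h3 : (1 / 8 : ℝ) ^ r / (4 * 2 ^ (2 * 2 ^ r)) = 2 * t := by
    rw [ht]
    have : (0 : ℝ) < 2 ^ (2 * 2 ^ r) := by positivity
    field_simp
    ring
  rw [h2, h3]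
  nlinarith [mul_nonneg (mul_nonneg he0 he0) hm00, mul_nonneg he0 ht0]

end Pool.Agent.H91.OM
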