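import Pool.Agent.H75.OM.TA

/-! MNS, CPS, NS2: monotonicity, composition of formulas, the sizes of the second formula. -/

set_option autoImplicit false

namespace Pool.Agent.H91.OM

open Finset Pool.Agent.H6.NB Pool.Agent.H70.OQ Pool.Agent.H70.EH Pool.Agent.H70.EI
open Pool.Agent.H78.XQ Pool.Agent.H75.OM

theorem cl_succ {V : Type} {S d : ℕ} {f : (V → Bool) → Bool} (hS : 1 ≤ S) (h : Cl V S d f) :
    Cl V S (d + 1) f := by
  refine ⟨1, fun _ => f, fun _ => true, hS, fun _ => h, fun y => ?_⟩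
  constructor
  · intro hy
    exact ⟨0, hy⟩
  · rintro ⟨_, hy⟩
    exact hy

theorem cl_mono {V : Type} {S S' : ℕ} (hS : S ≤ S') : ∀ {d : ℕ} {f : (V → Bool) → Bool},
    Cl V S d f → Cl V S' d f := by
  intro d
  induction d with
  | zero => intro f h; exact h
  | succ d ih =>
    rintro f ⟨m, g, b, hm, hg, hf⟩
    exact ⟨m, g, b, hm.trans hS, fun i => ih (hg i), hf⟩

theorem pf_MNS : T_MNS := by
  intro V S S' d d' f h hS hd h1
  obtain ⟨k, rfl⟩ := Nat.exists_eq_add_of_le hd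
  clear hd
  have h2 := cl_mono hS h
  induction k with
  | zero => exact h2
  | succ k ih => exact cl_succ h1 ih

theorem pf_CPS (h1 : T_MNS) : T_CPS := by
  intro V X S d e f g hS hf hg
  induction e generalizing f with
  | zero =>
    rcases hf with ⟨b, hb⟩ | ⟨v, hv⟩
    · exact h1 X S S 0 d _ (Or.inl ⟨b, fun y => hb _⟩) le_rfl (Nat.zero_le _) hS
    · have h2 : (fun y => f fun v => g v y) = g v := by
        funext y
        exact hv _
      rw [h2]
      exact hg v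
  | succ e ih =>
    obtain ⟨m, k, b, hm, hk, hf⟩ := hf
    refine ⟨m, fun i y => k i fun v => g v y, b, hm, fun i => ih (k i) (hk i), fun y => ?_⟩
    exact hf _

theorem cube_le (r : ℕ) (hr : 20 ≤ r) : 500 * (r + 1) ^ 3 ≤ 2 ^ (r + 3) := by
  induction r, hr using Nat.le_induction with
  | base => norm_num
  | succ r hr ih =>
    have h1 : (r + 1 + 1) ^ 3 ≤ 2 * (r + 1) ^ 3 := by
      have h2 : 6 * r + 6 ≤ r ^ 3 := by nlinarith [Nat.mul_le_mul hr hr]
      nlinarith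
    calc 500 * (r + 1 + 1) ^ 3 ≤ 500 * (2 * (r + 1) ^ 3) := Nat.mul_le_mul_left _ h1
      _ = 2 * (500 * (r + 1) ^ 3) := by ring
      _ ≤ 2 * 2 ^ (r + 3) := Nat.mul_le_mul_left _ ih
      _ = 2 ^ (r + 1 + 3) := by ring

theorem k_le (k : ℕ) : k + 11 ≤ 2 ^ (k + 4) := by
  induction k with
  | zero => norm_num
  | succ k ih =>
    have h : 2 ^ (k + 1 + 4) = 2 * 2 ^ (k + 4) := by ring
    rw [h]
    omega

theorem aux1 (X Y Z A M : ℕ) (h1 : X ≤ A) (h2 : Z ≤ 8 * Y) (h3 : 128 * A ≤ M)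
    (h4 : 2048 * Y ≤ M) : 128 * (X + 2 * Y + Z) ≤ M * 2 := by omega

theorem pf_NS2 : T_NS2 := by
  constructor
  · intro m k σ r h1 h2 h3
    have hr : 260 ≤ r := by omega
    have hc := cube_le r (by omega)
    have hk := k_le k
    have hm1 : 1 ≤ 2 ^ m := Nat.one_le_two_pow
    refine ⟨(2 ^ m + 1) * (k + 11) + 2 * 2 ^ r + 500 * (r + 1) ^ 3, ?_, ?_, ?_, ?_⟩
    · have : 1 ≤ 2 ^ r := Nat.one_le_two_pow
      omega
    · calc 2 = 2 ^ 1 := (pow_one 2).symm
        _ ≤ 2 ^ 2 ^ m := Nat.pow_le_pow_right (by norm_num) hm1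
    · have h4 : (2 ^ m + 1) * (k + 11) ≤ 2 ^ (m + k + 5) := by
        calc (2 ^ m + 1) * (k + 11) ≤ (2 * 2 ^ m) * 2 ^ (k + 4) :=
              Nat.mul_le_mul (by omega) hk
          _ = 2 ^ (m + k + 5) := by ring
      have h5 : 128 * ((2 ^ m + 1) * (k + 11) + 2 * 2 ^ r + 500 * (r + 1) ^ 3) ≤
          2 ^ (max (m + k + 13) (r + 12)) := by
        have e1 : 2 ^ (m + k + 12) ≤ 2 ^ (max (m + k + 12) (r + 11)) :=
          Nat.pow_le_pow_right (by norm_num) (le_max_left _ _)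
        have e2 : 2 ^ (r + 11) ≤ 2 ^ (max (m + k + 12) (r + 11)) :=
          Nat.pow_le_pow_right (by norm_num) (le_max_right _ _)
        have e3 : max (m + k + 13) (r + 12) = max (m + k + 12) (r + 11) + 1 := by omega
        rw [e3, pow_succ]
        have e4 : 2 ^ (m + k + 12) = 128 * 2 ^ (m + k + 5) := by
          rw [show m + k + 12 = (m + k + 5) + 7 by ring, pow_add]; ring
        have e5 : 2 ^ (r + 11) = 2048 * 2 ^ r := by rw [pow_add]; ring
        have e6 : 2 ^ (r + 3) = 8 * 2 ^ r := by rw [pow_add]; ring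
        exact aux1 _ _ _ _ _ h4 (e6 ▸ hc) (e4 ▸ e1) (e5 ▸ e2)
      refine (Nat.pow_le_pow_left h5 _).trans ?_
      rw [← pow_mul]
      refine Nat.pow_le_pow_right (by norm_num) ?_
      have h6 : σ ^ 3 ≤ r ^ 3 := Nat.pow_le_pow_left h3 3
      rcases le_total (m + k + 13) (r + 12) with h7 | h7
      · rw [max_eq_right h7]
        have h8 : 20 * (k + 10 + 1) ≤ r := by omega
        have h9 : (r + 12) * (k + 10 + 1) ≤ (2 * r) * r :=
          Nat.mul_le_mul (by omega) (by omega)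
        have h10 : 2 * r * r ≤ r ^ 3 := by
          have h11 : 2 * r ≤ r * r := Nat.mul_le_mul_right r (by omega)
          calc 2 * r * r ≤ r * r * r := Nat.mul_le_mul_right r h11
            _ = r ^ 3 := by ring
        exact h9.trans h10
      · rw [max_eq_left h7]
        refine le_trans ?_ (h2.trans h6)
        rw [mul_comm]
        exact Nat.mul_le_mul (by omega) (by omega)
    · have h4 : 2 ^ 2 ^ m + 1 ≤ 2 ^ (2 ^ m + 1) := by
        have : 1 ≤ 2 ^ 2 ^ m := Nat.one_le_two_pow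
        rw [pow_succ]
        omega
      calc (2 ^ 2 ^ m + 1) ^ (k + 10 + 1) * 2 ^ (2 * 2 ^ r + 500 * (r + 1) ^ 3)
          ≤ (2 ^ (2 ^ m + 1)) ^ (k + 10 + 1) * 2 ^ (2 * 2 ^ r + 500 * (r + 1) ^ 3) :=
            Nat.mul_le_mul_right _ (Nat.pow_le_pow_left h4 _)
        _ = 2 ^ ((2 ^ m + 1) * (k + 11) + 2 * 2 ^ r + 500 * (r + 1) ^ 3) := by
            have h5 : (2 ^ m + 1) * (k + 11) + 2 * 2 ^ r + 500 * (r + 1) ^ 3 =
              (2 ^ m + 1) * (k + 10 + 1) + (2 * 2 ^ r + 500 * (r + 1) ^ 3) := by ring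
            rw [← pow_mul, ← pow_add, h5]
  · intro r hr
    have hc := cube_le r hr
    have h1 : 1 ≤ 2 ^ r := Nat.one_le_two_pow
    refine ⟨2 + 2 * 2 ^ r + 500 * (r + 1) ^ 3, by omega, le_rfl, ?_, ?_⟩
    · rw [zero_add, pow_one]
      have e5 : 2 ^ (r + 11) = 2048 * 2 ^ r := by rw [pow_add]; ring
      have e6 : 2 ^ (r + 3) = 8 * 2 ^ r := by rw [pow_add]; ring
      have h2 : 128 * (2 + 2 * 2 ^ r + 500 * (r + 1) ^ 3) ≤ 2 ^ (r + 11) := by omega
      refine h2.trans (Nat.pow_le_pow_right (by norm_num) ?_)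
      nlinarith [Nat.mul_le_mul hr hr]
    · rw [zero_add, pow_one]
      calc (2 + 1) * 2 ^ (2 * 2 ^ r + 500 * (r + 1) ^ 3)
          ≤ 2 ^ 2 * 2 ^ (2 * 2 ^ r + 500 * (r + 1) ^ 3) := Nat.mul_le_mul_right _ (by norm_num)
        _ = 2 ^ (2 + 2 * 2 ^ r + 500 * (r + 1) ^ 3) := by
            rw [← pow_add, add_assoc]

end Pool.Agent.H91.OM
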